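import Mathlib
import Pool.Agent.H27.GenPoly

set_option autoImplicit false

namespace Pool.Agent.Results.MP_f5651a_an.Limsup

open Filter Topology Polynomial

/-- `F` is a functional of degree `m`: a polynomial of degree at most `m` in the rational
parameter along every line. -/
def IsDeg {E : Type} [AddCommGroup E] [Module ℝ E] (m : ℕ) (F : E → ℝ) : Prop :=
  ∀ x h : E, ∃ a : Fin (m + 1) → ℝ, ∀ t : ℚ,
    F (x + (t : ℝ) • h) = ∑ j, a j * (t : ℝ) ^ (j : ℕ)

open Pool.Agent.H27.GenPoly in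
theorem result (E : Type) [NormedAddCommGroup E] [NormedSpace ℝ E] (m : ℕ) (F : E → ℝ)
    (hF : IsDeg m F) (hd : ¬ Continuous F) :
    ∃ u : ℕ → E, Tendsto u atTop (𝓝 0) ∧
      ∀ x : E, limsup (fun n => ((|F (u n + x)| : ℝ) : EReal)) atTop = ⊤ := by
  have hF' : Deg m F := by
    intro x h
    obtain ⟨a, ha⟩ := hF x h
    refine ⟨∑ j : Fin (m + 1), C (a j) * X ^ (j : ℕ), ?_, fun t => ?_⟩
    · refine natDegree_sum_le_of_forall_le _ _ fun i _ => ?_
      exact (natDegree_C_mul_X_pow_le _ _).trans (Nat.lt_succ_iff.1 i.2)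
    · rw [ha, eval_finsetSum]; simp
  have h1 : ∃ x, ¬ LB F x := by
    by_contra h
    push Not at h
    exact hd (continuous_iff_continuousAt.2 fun x => cont_of_LB hF' x (h x))
  obtain ⟨u, hu, hu'⟩ := blowup m F hF' h1
  refine ⟨u, hu, fun x => ?_⟩
  rw [EReal.eq_top_iff_forall_lt]
  intro M
  refine lt_of_lt_of_le (EReal.coe_lt_coe_iff.2 (lt_add_one M)) ?_
  refine le_limsup_of_frequently_le ((hu' x (M + 1)).mono fun n hn => ?_)
  exact EReal.coe_le_coe_iff.2 hn

end Pool.Agent.Results.MP_f5651a_an.Limsup
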