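import Mathlib

set_option autoImplicit false

namespace Pool.Agent.Results.MP_f5651a_an.NoLimit

open Filter Topology Cardinal

/-- `F` is a functional of degree `m`: a polynomial of degree at most `m` in the rational
parameter along every line. -/
def IsDeg {E : Type} [AddCommGroup E] [Module ℝ E] (m : ℕ) (F : E → ℝ) : Prop :=
  ∀ x h : E, ∃ a : Fin (m + 1) → ℝ, ∀ t : ℚ,
    F (x + (t : ℝ) • h) = ∑ j, a j * (t : ℝ) ^ (j : ℕ)

section Aux

theorem exists_form {E I : Type} [AddCommGroup E] [Module ℝ E] [Nonempty I]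
    (b : Module.Basis I ℝ E) (σ : I → (ℕ → ℕ) × (ℕ → I × ℝ)) (hσ : Function.Surjective σ) :
    ∃ B : E →ₗ[ℝ] E →ₗ[ℝ] ℝ, ∀ (u : ℕ → E) (ψ : E →ₗ[ℝ] ℝ), ∃ h : E, B h h = 0 ∧
      ∀ n, B h (u n) = ψ (u n) ∧ B (u n) h = 0 := by
  classical
  let val : (ℕ → I × ℝ) → I → ℝ := fun c j =>
    if h : ∃ n, (c n).1 = j then (c h.choose).2 else 0
  let lt : I → I → Prop := fun j i => ∀ᶠ n in atTop, (σ j).1 n < (σ i).1 n
  have asym : ∀ i j, lt i j → ¬ lt j i := by
    intro i j h1 h2
    obtain ⟨n, h3, h4⟩ := (h1.and h2).exists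
    exact lt_asymm h3 h4
  let B : E →ₗ[ℝ] E →ₗ[ℝ] ℝ :=
    b.constr ℝ fun i => b.constr ℝ fun j => if lt j i then val (σ i).2 j else 0
  have hB : ∀ i j, B (b i) (b j) = if lt j i then val (σ i).2 j else 0 := by
    intro i j
    simp only [B, Module.Basis.constr_basis]
  refine ⟨B, fun u ψ => ?_⟩
  have hc : (insert (Classical.arbitrary I) (⋃ n, ((b.repr (u n)).support : Set I))).Countable :=
    (Set.countable_iUnion fun n => (Finset.countable_toSet _)).insert _
  obtain ⟨s, hs⟩ := hc.exists_eq_range (Set.insert_nonempty _ _)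
  obtain ⟨i, hi⟩ := hσ (fun n => 1 + (Finset.range (n + 1)).sup fun k => (σ (s k)).1 n,
    fun n => (s n, ψ (b (s n))))
  have hlt : ∀ k, lt (s k) i := by
    intro k
    refine eventually_atTop.2 ⟨k, fun n hn => ?_⟩
    rw [hi]
    have : (σ (s k)).1 n ≤ (Finset.range (n + 1)).sup fun k => (σ (s k)).1 n :=
      Finset.le_sup (f := fun k => (σ (s k)).1 n) (Finset.mem_range.2 (by omega))
    change _ < 1 + _
    omega
  have hval : ∀ k, val (σ i).2 (s k) = ψ (b (s k)) := by
    intro k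
    have h : ∃ n, ((σ i).2 n).1 = s k := ⟨k, by rw [hi]⟩
    simp only [val, dif_pos h]
    have h1 := h.choose_spec
    generalize h.choose = n at h1
    rw [hi] at h1 ⊢
    change s n = s k at h1
    change ψ (b (s n)) = _
    rw [h1]
  have hspan : ∀ n, u n ∈ Submodule.span ℝ (b '' Set.range s) := by
    intro n
    refine Submodule.span_mono (Set.image_mono ?_) (b.mem_span_repr_support (u n))
    rw [← hs]
    exact fun j hj => Set.mem_insert_of_mem _ (Set.mem_iUnion.2 ⟨n, hj⟩)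
  refine ⟨b i, ?_, fun n => ⟨?_, ?_⟩⟩
  · rw [hB, if_neg fun h => asym i i h h]
  · refine LinearMap.eqOn_span' (f := B (b i)) (g := ψ) ?_ (hspan n)
    rintro _ ⟨_, ⟨k, rfl⟩, rfl⟩
    rw [hB, if_pos (hlt k), hval]
  · refine LinearMap.eqOn_span' (f := B.flip (b i)) (g := 0) ?_ (hspan n)
    rintro _ ⟨_, ⟨k, rfl⟩, rfl⟩
    rw [LinearMap.flip_apply, hB, if_neg (asym _ _ (hlt k))]; rfl

theorem main {E : Type} [NormedAddCommGroup E] [NormedSpace ℝ E]
    (hE : ¬ FiniteDimensional ℝ E) (B : E →ₗ[ℝ] E →ₗ[ℝ] ℝ)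
    (hB : ∀ (u : ℕ → E) (ψ : E →ₗ[ℝ] ℝ), ∃ h : E, B h h = 0 ∧
      ∀ n, B h (u n) = ψ (u n) ∧ B (u n) h = 0) :
    IsDeg 2 (fun x => B x x) ∧ ¬ Continuous (fun x => B x x) ∧
      ∀ u : ℕ → E, Tendsto u atTop (𝓝 0) →
        ∃ x, ¬ Tendsto (fun n => |B (u n + x) (u n + x)|) atTop atTop := by
  have hexp : ∀ (u : ℕ → E) (ψ : E →ₗ[ℝ] ℝ), ∃ h : E, B h h = 0 ∧
      ∀ n, B (u n + h) (u n + h) = B (u n) (u n) + ψ (u n) := by
    intro u ψ
    obtain ⟨h, h0, h1⟩ := hB u ψ
    refine ⟨h, h0, fun n => ?_⟩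
    simp only [map_add, LinearMap.add_apply, h0, (h1 n).1, (h1 n).2]
    ring
  refine ⟨fun x h => ⟨![B x x, B x h + B h x, B h h], fun t => ?_⟩, fun hc => ?_, fun u hu => ?_⟩
  · simp [Fin.sum_univ_three]
    ring
  · obtain ⟨w, hw, hli⟩ : ∃ w : ℕ → E, Tendsto w atTop (𝓝 0) ∧ LinearIndependent ℝ w := by
      have hr : ℵ₀ ≤ Module.rank ℝ E := by
        by_contra hlt
        exact hE (Module.rank_lt_aleph0_iff.1 (not_le.1 hlt))
      obtain ⟨f, hf⟩ : ∃ f : ℕ → E, LinearIndependent ℝ f := by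
        rw [Module.Free.rank_eq_card_chooseBasisIndex, Cardinal.aleph0_le_mk_iff] at hr
        exact ⟨_, (Module.Free.chooseBasis ℝ E).linearIndependent.comp _
          (Infinite.natEmbedding _).injective⟩
      have hf0 : ∀ n, ‖f n‖ ≠ 0 := fun n => norm_ne_zero_iff.2 (hf.ne_zero n)
      refine ⟨fun n => (1 / ((n : ℝ) + 1) * ‖f n‖⁻¹) • f n, ?_, ?_⟩
      · rw [tendsto_zero_iff_norm_tendsto_zero]
        refine tendsto_one_div_add_atTop_nhds_zero_nat.congr fun n => ?_
        rw [norm_smul, norm_mul, norm_inv, norm_norm, mul_assoc, inv_mul_cancel₀ (hf0 n), mul_one,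
          Real.norm_of_nonneg (by positivity)]
      · exact hf.units_smul fun n => Units.mk0 (1 / ((n : ℝ) + 1) * ‖f n‖⁻¹)
          (mul_ne_zero (by positivity) (inv_ne_zero (hf0 n)))
    obtain ⟨ψ, hψ⟩ := (((Module.Basis.span hli).constr ℝ fun _ => (1 : ℝ))).exists_extend
    have hψ' : ∀ n, ψ (w n) = 1 := by
      intro n
      have := LinearMap.congr_fun hψ (Module.Basis.span hli n)
      rw [Module.Basis.constr_basis] at this
      rw [← this]; simp
    obtain ⟨h, h0, h1⟩ := hexp w ψ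
    have t1 : Tendsto (fun n => B (w n + h) (w n + h)) atTop (𝓝 (B (0 + h) (0 + h))) :=
      (hc.tendsto _).comp (hw.add_const h)
    have t2 : Tendsto (fun n => B (w n) (w n) + 1) atTop (𝓝 (B 0 0 + 1)) :=
      ((hc.tendsto _).comp hw).add_const 1
    simp only [h1, hψ', zero_add, h0] at t1
    have := tendsto_nhds_unique t1 t2
    simp at this
  · obtain ⟨S, hS, hspan, hli⟩ := exists_linearIndependent ℝ (Set.range u)
    by_cases hfin : S.Finite
    · refine ⟨0, fun ht => ?_⟩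
      let W := Submodule.span ℝ (Set.range u)
      have : FiniteDimensional ℝ W := by
        have := FiniteDimensional.span_of_finite ℝ hfin
        rwa [hspan] at this
      let B' : W →ₗ[ℝ] W →L[ℝ] ℝ :=
        (LinearMap.toContinuousLinearMap (𝕜 := ℝ) (E := W) (F' := ℝ)).toLinearMap ∘ₗ
          (B.domRestrict₁₂ W W)
      have hB' : Continuous fun x : W => B' x x :=
        (B'.continuous_of_finiteDimensional).clm_apply continuous_id
      let u' : ℕ → W := fun n => ⟨u n, Submodule.subset_span ⟨n, rfl⟩⟩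
      have hu' : Tendsto u' atTop (𝓝 0) := tendsto_subtype_rng.2 hu
      have t1 : Tendsto (fun n => |B (u n + 0) (u n + 0)|) atTop (𝓝 |B' 0 0|) := by
        refine (((hB'.tendsto _).comp hu').abs).congr fun n => ?_
        rw [add_zero]; rfl
      exact not_tendsto_atTop_of_tendsto_nhds t1 ht
    · obtain ⟨ψ, hψ⟩ := (((Module.Basis.span hli).constr ℝ fun v => - B v v)).exists_extend
      have hψ' : ∀ v ∈ S, ψ v = - B v v := by
        intro v hv
        have := LinearMap.congr_fun hψ (Module.Basis.span hli ⟨v, hv⟩)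
        rw [Module.Basis.constr_basis] at this
        rw [← this]; simp
      obtain ⟨h, h0, h1⟩ := hexp u ψ
      refine ⟨h, fun ht => hfin ?_⟩
      obtain ⟨N, hN⟩ := eventually_atTop.1 (ht.eventually (eventually_gt_atTop 0))
      refine ((Set.finite_lt_nat N).image u).subset fun v hv => ?_
      obtain ⟨n, rfl⟩ := hS hv
      refine ⟨n, ?_, rfl⟩
      by_contra hn
      have := hN n (not_lt.1 hn)
      rw [h1, hψ' _ hv] at this
      simp at this

abbrev L2 : Type := lp (fun _ : ℕ => ℝ) 2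

theorem rank_L2 : Module.rank ℝ L2 = 𝔠 := by
  apply le_antisymm
  · refine (rank_le_card ℝ L2).trans ?_
    have : #L2 ≤ #(ℕ → ℝ) := mk_le_of_injective (f := fun x : L2 => (x : ℕ → ℝ))
      fun x y h => Subtype.ext h
    refine this.trans (le_of_eq ?_)
    simp [Cardinal.mk_real]
  · let g : Set.Ioo (0 : ℝ) 1 → L2 := fun c => ⟨fun n => c.1 ^ n, by
      refine memℓp_gen ?_
      have : Summable fun n : ℕ => (c.1 ^ 2) ^ n :=
        summable_geometric_of_lt_one (by positivity) (by nlinarith [c.2.1, c.2.2])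
      refine this.congr fun n => ?_
      simp only [ENNReal.toReal_ofNat, Real.rpow_ofNat, Real.norm_eq_abs, sq_abs]
      ring⟩
    let co : L2 →ₗ[ℝ] (ℕ → ℝ) :=
      { toFun := fun x => (x : ℕ → ℝ), map_add' := fun _ _ => rfl, map_smul' := fun _ _ => rfl }
    let sh : Module.End ℝ (ℕ → ℝ) := LinearMap.funLeft ℝ ℝ Nat.succ
    have h1 : LinearIndependent ℝ (co ∘ g) := by
      refine Module.End.eigenvectors_linearIndependent sh (Set.Ioo 0 1) (co ∘ g) fun c => ?_
      refine ⟨Module.End.mem_eigenspace_iff.2 ?_, fun h => ?_⟩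
      · funext n
        change c.1 ^ (n + 1) = c.1 * c.1 ^ n
        ring
      · have := congrFun h 0
        change c.1 ^ 0 = 0 at this
        simp at this
    have h2 := (LinearIndependent.of_comp co h1).cardinal_le_rank
    rwa [Cardinal.mk_Ioo_real zero_lt_one] at h2

end Aux

theorem result :
    ∃ F : lp (fun _ : ℕ => ℝ) 2 → ℝ, IsDeg 2 F ∧ ¬ Continuous F ∧
      ∀ u : ℕ → lp (fun _ : ℕ => ℝ) 2, Tendsto u atTop (𝓝 0) →
        ∃ x, ¬ Tendsto (fun n => |F (u n + x)|) atTop atTop := by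
  let b := Module.Free.chooseBasis ℝ L2
  have hI : #(Module.Free.ChooseBasisIndex ℝ L2) = 𝔠 := by
    rw [← rank_L2, Module.Free.rank_eq_card_chooseBasisIndex]
  have h1 : #(Module.Free.ChooseBasisIndex ℝ L2) =
      #((ℕ → ℕ) × (ℕ → Module.Free.ChooseBasisIndex ℝ L2 × ℝ)) := by
    simp [hI, Cardinal.mk_real]
  obtain ⟨σ⟩ := Cardinal.eq.1 h1
  have : Nonempty (Module.Free.ChooseBasisIndex ℝ L2) := by
    rw [← mk_ne_zero_iff, hI]; exact continuum_ne_zero
  obtain ⟨B, hB⟩ := exists_form b σ σ.surjective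
  refine ⟨fun x => B x x, main (fun h => ?_) B hB⟩
  have := Module.rank_lt_aleph0 ℝ L2
  rw [rank_L2] at this
  exact absurd this (not_lt.2 aleph0_le_continuum)

end Pool.Agent.Results.MP_f5651a_an.NoLimit
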